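import Mathlib

/-!
# MP_5fcb94_co: the underlying digraph does not determine the Young graph

The `(493, 316)` and `(225, 79)` Young graphs (both with 14 nodes) have isomorphic underlying
directed graphs, but the first has three even pivot nodes and the second only one.
-/

set_option autoImplicit false
set_option maxRecDepth 100000

namespace Pool.Agent.Results.MP_5fcb94_co.SameDigraph

/-- Nodes: `none` is the starting node `[[0,0]]`, `some (r', r)` is the ordinary node `[r', r]`. -/
abbrev Node := Option (ℕ × ℕ)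

/-- The pair `(r', r)` of a node (for the starting node `(0, 0)`). -/
def carries : Node → ℕ × ℕ
  | none => (0, 0)
  | some p => p

/-- There is an edge `x ⟶ y` labelled `(b, a)`: the digits satisfy `0 ≤ a, b < g` (and `a, b ≥ 1` if
`x` is the starting node), `k a + r ≡ b (mod g)`, `0 ≤ a + r' g - k b < k`, and the target is
the ordinary node `[t, s]` with `s = (k a + r - b) / g` and `t = a + r' g - k b`. -/
def LEdge (g k : ℕ) (x : Node) (b a : ℕ) (y : Node) : Prop :=
  a < g ∧ b < g ∧ (x = none → 1 ≤ a ∧ 1 ≤ b) ∧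
  k * a + (carries x).2 ≡ b [MOD g] ∧
  (0 : ℤ) ≤ (a : ℤ) + (carries x).1 * g - k * b ∧ (a : ℤ) + (carries x).1 * g - k * b < k ∧
  ∃ t s : ℕ, y = some (t, s) ∧
    (s : ℤ) = ((k : ℤ) * a + (carries x).2 - b) / g ∧
    (t : ℤ) = (a : ℤ) + (carries x).1 * g - k * b

/-- There is an edge from `x` to `y`. -/
def Edge (g k : ℕ) (x y : Node) : Prop := ∃ b a, LEdge g k x b a y

/-- `x` is a node of `H(g,k)`: it is reachable from the starting node. -/
def InH (g k : ℕ) (x : Node) : Prop := Relation.ReflTransGen (Edge g k) none x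

/-- Even pivot nodes of `H(g,k)`: ordinary nodes `[r, r]`. -/
def EvenPivot (g k : ℕ) (x : Node) : Prop := InH g k x ∧ ∃ r, x = some (r, r)

/-- Odd pivot nodes of `H(g,k)`: ordinary nodes `[r, r]` with a loop, or ordinary nodes `[r', r]`
with `r' ≠ r` and an edge `[r', r] ⟶ [r, r']`. -/
def OddPivot (g k : ℕ) (x : Node) : Prop :=
  InH g k x ∧ ((∃ r, x = some (r, r) ∧ Edge g k x x) ∨
    ∃ r' r, r' ≠ r ∧ x = some (r', r) ∧ Edge g k x (some (r, r')))

/-- Pivot nodes. -/
def Pivot (g k : ℕ) (x : Node) : Prop := EvenPivot g k x ∨ OddPivot g k x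

/-- The `(g,k)` Young graph exists: `H(g,k)` has a pivot node other than `[0,0]`. -/
def YoungExists (g k : ℕ) : Prop := ∃ x, Pivot g k x ∧ x ≠ some (0, 0)

/-- `x` is a node of the Young graph: a node of `H(g,k)` from which some pivot node is reachable. -/
def InYoung (g k : ℕ) (x : Node) : Prop :=
  InH g k x ∧ ∃ y, Pivot g k y ∧ Relation.ReflTransGen (Edge g k) x y

/-- An isomorphism of the underlying directed graphs of two Young graphs. -/
structure DigraphIso (g k g' k' : ℕ) where
  /-- the bijection on nodes -/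
  toEquiv : {x // InYoung g k x} ≃ {x // InYoung g' k' x}
  /-- it preserves and reflects edges -/
  edge_iff : ∀ x y : {x // InYoung g k x},
    Edge g k x.1 y.1 ↔ Edge g' k' (toEquiv x).1 (toEquiv y).1

/-- Isomorphism of Young graphs: a digraph isomorphism mapping even pivot nodes onto even pivot
nodes and odd pivot nodes onto odd pivot nodes. -/
def YoungIso (g k g' k' : ℕ) : Prop :=
  ∃ f : DigraphIso g k g' k',
    (∀ x, EvenPivot g k x.1 ↔ EvenPivot g' k' (f.toEquiv x).1) ∧
    (∀ x, OddPivot g k x.1 ↔ OddPivot g' k' (f.toEquiv x).1)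

/-! ### Computation of edges -/

/-- The target of the edge with digit `a`, if any. -/
def succ (g k : ℕ) (x : Node) (a : ℕ) : Option (ℕ × ℕ) :=
  if k * ((k * a + (carries x).2) % g) ≤ a + (carries x).1 * g ∧
      a + (carries x).1 * g < k * ((k * a + (carries x).2) % g) + k ∧
      (x.isNone = true → 1 ≤ a ∧ 1 ≤ (k * a + (carries x).2) % g) then
    some (a + (carries x).1 * g - k * ((k * a + (carries x).2) % g),
      (k * a + (carries x).2) / g)
  else none

/-- All targets. -/
def outs (g k : ℕ) (x : Node) : List (ℕ × ℕ) := (List.range g).filterMap (succ g k x)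

lemma edge_iff {g k : ℕ} (hg : 0 < g) (x y : Node) :
    Edge g k x y ↔ ∃ p ∈ outs g k x, y = some p := by
  constructor
  · rintro ⟨b, a, ha, hb, hst, hmod, h0, h1, t, s, rfl, hs, ht⟩
    have hb' : b = (k * a + (carries x).2) % g := by
      have : (k * a + (carries x).2) % g = b % g := hmod
      rw [this, Nat.mod_eq_of_lt hb]
    refine ⟨(t, s), ?_, rfl⟩
    unfold outs
    rw [List.mem_filterMap]
    refine ⟨a, List.mem_range.2 ha, ?_⟩
    unfold succ
    rw [← hb']
    have hc1 : k * b ≤ a + (carries x).1 * g := by zify; linarith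
    have hc2 : a + (carries x).1 * g < k * b + k := by zify; linarith
    rw [if_pos ⟨hc1, hc2, fun h => hst (by simpa using h)⟩]
    have e1 : a + (carries x).1 * g - k * b = t := by zify [hc1]; exact ht.symm
    have e2 : (k * a + (carries x).2) / g = s := by
      have hdm : g * ((k * a + (carries x).2) / g) + b = k * a + (carries x).2 := by
        rw [hb']; exact Nat.div_add_mod _ _
      have : ((k : ℤ) * a + (carries x).2 - b) / g = (((k * a + (carries x).2) / g : ℕ) : ℤ) := by
        have h2 : ((k : ℤ) * a + (carries x).2 - b)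
            = g * (((k * a + (carries x).2) / g : ℕ) : ℤ) := by
          have := congrArg (Nat.cast : ℕ → ℤ) hdm
          push_cast at this ⊢
          linarith
        rw [h2]
        exact Int.mul_ediv_cancel_left _ (by exact_mod_cast hg.ne')
      rw [this] at hs
      exact_mod_cast hs.symm
    rw [e1, e2]
  · rintro ⟨p, hp, rfl⟩
    unfold outs at hp
    rw [List.mem_filterMap] at hp
    obtain ⟨a, ha, h⟩ := hp
    unfold succ at h
    split_ifs at h with hc
    obtain ⟨hc1, hc2, hc3⟩ := hc
    have ha' := List.mem_range.1 ha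
    refine ⟨(k * a + (carries x).2) % g, a, ha', Nat.mod_lt _ hg, ?_, ?_, ?_, ?_, ?_⟩
    · intro hx; exact hc3 (by rw [hx]; rfl)
    · exact (Nat.mod_modEq _ _).symm
    · zify at hc1; push_cast at hc1 ⊢; linarith
    · zify at hc2; push_cast at hc2 ⊢; linarith
    · refine ⟨a + (carries x).1 * g - k * ((k * a + (carries x).2) % g),
        (k * a + (carries x).2) / g, h.symm, ?_, ?_⟩
      · have hdm : g * ((k * a + (carries x).2) / g) + (k * a + (carries x).2) % g
            = k * a + (carries x).2 := Nat.div_add_mod _ _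
        have h2 : ((k : ℤ) * a + (carries x).2 - ((k * a + (carries x).2) % g : ℕ))
            = g * (((k * a + (carries x).2) / g : ℕ) : ℤ) := by
          have := congrArg (Nat.cast : ℕ → ℤ) hdm
          push_cast at this ⊢
          linarith
        rw [h2]
        exact (Int.mul_ediv_cancel_left _ (by exact_mod_cast hg.ne')).symm
      · zify [hc1]

def tabA : List (Node × List (ℕ × ℕ)) := [
  (none, [(138, 291)]),
  (some (138, 291), [(100, 4), (238, 295)]),
  (some (100, 4), [(130, 283)]),
  (some (130, 283), [(104, 104)]),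
  (some (104, 104), [(283, 130)]),
  (some (283, 130), [(4, 100)]),
  (some (4, 100), [(291, 138)]),
  (some (238, 295), [(230, 287)]),
  (some (230, 287), [(96, 96)]),
  (some (96, 96), [(287, 230)]),
  (some (287, 230), [(295, 238)]),
  (some (295, 238), [(291, 138)]),
  (some (291, 138), [(0, 0), (138, 291)]),
  (some (0, 0), [(0, 0), (138, 291)])]

def tabB : List (Node × List (ℕ × ℕ)) := [
  (none, [(15, 33), (30, 66)]),
  (some (30, 66), [(36, 28), (51, 61)]),
  (some (36, 28), [(38, 26), (53, 59)]),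
  (some (38, 26), [(76, 20)]),
  (some (76, 20), [(25, 23), (40, 56)]),
  (some (40, 56), [(46, 18), (61, 51)]),
  (some (61, 51), [(66, 30)]),
  (some (51, 61), [(41, 7), (56, 40), (71, 73)]),
  (some (56, 40), [(5, 43), (20, 76)]),
  (some (20, 76), [(11, 5), (26, 38), (41, 71)]),
  (some (26, 38), [(13, 3), (28, 36), (43, 69)]),
  (some (28, 36), [(66, 30)]),
  (some (66, 30), [(0, 0), (15, 33), (30, 66)]),
  (some (0, 0), [(0, 0), (15, 33), (30, 66)])]

def tabN : List (Node × List (ℕ × ℕ)) := [
  (some (15, 33), [(18, 14), (33, 47)]),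
  (some (18, 14), []),
  (some (33, 47), []),
  (some (53, 59), []),
  (some (41, 7), [(2, 62)]),
  (some (71, 73), [(8, 24), (23, 57)]),
  (some (2, 62), []),
  (some (5, 43), [(8, 24), (23, 57)]),
  (some (8, 24), []),
  (some (23, 57), []),
  (some (25, 23), [(28, 4), (43, 37), (58, 70)]),
  (some (11, 5), [(10, 22), (25, 55)]),
  (some (41, 71), [(31, 17), (46, 50)]),
  (some (28, 4), []),
  (some (43, 37), []),
  (some (58, 70), []),
  (some (46, 18), [(48, 16), (63, 49)]),
  (some (10, 22), []),
  (some (25, 55), []),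
  (some (13, 3), [(48, 16), (63, 49)]),
  (some (43, 69), [(69, 11)]),
  (some (31, 17), []),
  (some (46, 50), []),
  (some (48, 16), []),
  (some (63, 49), []),
  (some (69, 11), [])]

/-- The nodes of a table. -/
def keys (t : List (Node × List (ℕ × ℕ))) : List Node := t.map Prod.fst

lemma tabA_ok : ∀ e ∈ tabA, outs 493 316 e.1 = e.2 := by decide +kernel
lemma tabB_ok : ∀ e ∈ tabB, outs 225 79 e.1 = e.2 := by decide +kernel
lemma tabN_ok : ∀ e ∈ tabN, outs 225 79 e.1 = e.2 := by decide +kernel

lemma edgeA {e : Node × List (ℕ × ℕ)} (he : e ∈ tabA) (y : Node) :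
    Edge 493 316 e.1 y ↔ ∃ p ∈ e.2, y = some p := by
  rw [edge_iff (by norm_num), tabA_ok e he]

lemma edgeB {e : Node × List (ℕ × ℕ)} (he : e ∈ tabB) (y : Node) :
    Edge 225 79 e.1 y ↔ ∃ p ∈ e.2, y = some p := by
  rw [edge_iff (by norm_num), tabB_ok e he]

lemma edgeN {e : Node × List (ℕ × ℕ)} (he : e ∈ tabN) (y : Node) :
    Edge 225 79 e.1 y ↔ ∃ p ∈ e.2, y = some p := by
  rw [edge_iff (by norm_num), tabN_ok e he]

lemma mem_keys {t : List (Node × List (ℕ × ℕ))} {x : Node} (h : x ∈ keys t) :
    ∃ e ∈ t, e.1 = x := by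
  simpa [keys] using h

/-- If every later entry of a list has a predecessor earlier in the list, all entries are
reachable from the first one. -/
lemma reach_first {E : Node → Node → Prop} (l : List Node) (hl : 0 < l.length)
    (h : ∀ i, (hi : i < l.length) → i ≠ 0 → ∃ j, ∃ hj : j < l.length, j < i ∧ E l[j] l[i]) :
    ∀ i, (hi : i < l.length) → Relation.ReflTransGen E l[0] l[i] := by
  intro i
  induction i using Nat.strong_induction_on with
  | _ i ih =>
    intro hi
    rcases eq_or_ne i 0 with rfl | h0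
    · exact Relation.ReflTransGen.refl
    · obtain ⟨j, hj, hji, hE⟩ := h i hi h0
      exact (ih j hji hj).tail hE

/-- If every entry but the last has a successor later in the list, all entries reach the last. -/
lemma reach_last {E : Node → Node → Prop} (l : List Node) (n : ℕ) (hl : l.length = n + 1)
    (h : ∀ i, (hi : i < l.length) → i ≠ n → ∃ j, ∃ hj : j < l.length, i < j ∧ E l[i] l[j]) :
    ∀ d i, (hi : i < l.length) → i + d = n → Relation.ReflTransGen E l[i] (l[n]'(by omega)) := by
  intro d
  induction d using Nat.strong_induction_on with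
  | _ d ih =>
    intro i hi hd
    rcases eq_or_ne i n with rfl | h0
    · exact Relation.ReflTransGen.refl
    · obtain ⟨j, hj, hij, hE⟩ := h i hi h0
      exact Relation.ReflTransGen.head hE (ih (n - j) (by omega) j hj (by omega))

lemma closedA : ∀ e ∈ tabA, ∀ p ∈ e.2, some p ∈ keys tabA := by decide +kernel
lemma closedB : ∀ e ∈ tabB, ∀ p ∈ e.2, some p ∈ keys tabB ∨ some p ∈ keys tabN := by
  decide +kernel
lemma closedN : ∀ e ∈ tabN, ∀ p ∈ e.2, some p ∈ keys tabN := by decide +kernel

lemma inH_A {x : Node} (h : InH 493 316 x) : x ∈ keys tabA := by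
  induction h with
  | refl => decide +kernel
  | tail _ hE ih =>
    obtain ⟨e, he, rfl⟩ := mem_keys ih
    obtain ⟨p, hp, rfl⟩ := (edgeA he _).1 hE
    exact closedA e he p hp

lemma reachN {x y : Node} (hx : x ∈ keys tabN) (h : Relation.ReflTransGen (Edge 225 79) x y) :
    y ∈ keys tabN := by
  induction h with
  | refl => exact hx
  | tail _ hE ih =>
    obtain ⟨e, he, rfl⟩ := mem_keys ih
    obtain ⟨p, hp, rfl⟩ := (edgeN he _).1 hE
    exact closedN e he p hp

lemma inH_B {x : Node} (h : InH 225 79 x) : x ∈ keys tabB ∨ x ∈ keys tabN := by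
  induction h with
  | refl => left; decide +kernel
  | tail _ hE ih =>
    rcases ih with ih | ih
    · obtain ⟨e, he, rfl⟩ := mem_keys ih
      obtain ⟨p, hp, rfl⟩ := (edgeB he _).1 hE
      exact closedB e he p hp
    · obtain ⟨e, he, rfl⟩ := mem_keys ih
      obtain ⟨p, hp, rfl⟩ := (edgeN he _).1 hE
      right; exact closedN e he p hp

/-- Boolean adjacency from a table. -/
def adj (t : List (Node × List (ℕ × ℕ))) (x y : Node) : Bool :=
  t.any fun e => e.1 == x && (e.2.map some).contains y

lemma adj_edge {g k : ℕ} {t : List (Node × List (ℕ × ℕ))}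
    (ht : ∀ e ∈ t, ∀ y, Edge g k e.1 y ↔ ∃ p ∈ e.2, y = some p) {x y : Node}
    (hx : x ∈ keys t) : Edge g k x y ↔ adj t x y = true := by
  unfold adj
  rw [List.any_eq_true]
  constructor
  · intro hE
    obtain ⟨e, he, rfl⟩ := mem_keys hx
    obtain ⟨p, hp, rfl⟩ := (ht e he _).1 hE
    exact ⟨e, he, by simp [hp]⟩
  · rintro ⟨e, he, h⟩
    simp only [Bool.and_eq_true, beq_iff_eq, List.contains_eq_mem, List.mem_map,
      decide_eq_true_eq] at h
    obtain ⟨rfl, p, hp, rfl⟩ := h
    exact (ht e he _).2 ⟨p, hp, rfl⟩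

lemma adjA {x y : Node} (hx : x ∈ keys tabA) : Edge 493 316 x y ↔ adj tabA x y = true :=
  adj_edge (fun _ he y => edgeA he y) hx

lemma adjB {x y : Node} (hx : x ∈ keys tabB) : Edge 225 79 x y ↔ adj tabB x y = true :=
  adj_edge (fun _ he y => edgeB he y) hx

lemma firstA : ∀ i < 14, i ≠ 0 → ∃ j < i,
    adj tabA ((keys tabA).getD j none) ((keys tabA).getD i none) = true := by decide +kernel
lemma firstB : ∀ i < 14, i ≠ 0 → ∃ j < i,
    adj tabB ((keys tabB).getD j none) ((keys tabB).getD i none) = true := by decide +kernel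
lemma lastA : ∀ i < 14, i ≠ 13 → ∃ j < 14, i < j ∧
    adj tabA ((keys tabA).getD i none) ((keys tabA).getD j none) = true := by decide +kernel
lemma lastB : ∀ i < 14, i ≠ 13 → ∃ j < 14, i < j ∧
    adj tabB ((keys tabB).getD i none) ((keys tabB).getD j none) = true := by decide +kernel

lemma getD_get (l : List Node) (i : ℕ) (hi : i < l.length) : l.getD i none = l[i] := by
  simp [List.getD_eq_getElem?_getD, hi]

lemma lenA : (keys tabA).length = 14 := by decide +kernel
lemma lenB : (keys tabB).length = 14 := by decide +kernel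

lemma reachA {x : Node} (hx : x ∈ keys tabA) :
    InH 493 316 x ∧ Relation.ReflTransGen (Edge 493 316) x (some (0, 0)) := by
  obtain ⟨i, hi, rfl⟩ := List.mem_iff_getElem.1 hx
  constructor
  · have := reach_first (E := Edge 493 316) (keys tabA) (by rw [lenA]; norm_num) (by
      intro i hi h0
      obtain ⟨j, hj, h⟩ := firstA i (by rw [lenA] at hi; exact hi) h0
      have hj' : j < (keys tabA).length := by omega
      refine ⟨j, hj', hj, ?_⟩
      rw [adjA (List.getElem_mem _)]
      rwa [getD_get _ _ hj', getD_get _ _ hi] at h) i hi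
    have e0 : (keys tabA)[0]'(by rw [lenA]; norm_num) = none := by decide +kernel
    rwa [e0] at this
  · have := reach_last (E := Edge 493 316) (keys tabA) 13 (by rw [lenA]) (by
      intro i hi h0
      obtain ⟨j, hj, hij, h⟩ := lastA i (by rw [lenA] at hi; exact hi) h0
      have hj' : j < (keys tabA).length := by rw [lenA]; exact hj
      refine ⟨j, hj', hij, ?_⟩
      rw [adjA (List.getElem_mem _)]
      rwa [getD_get _ _ hj', getD_get _ _ hi] at h) (13 - i) i hi (by rw [lenA] at hi; omega)
    have e0 : (keys tabA)[13]'(by rw [lenA]; norm_num) = some (0, 0) := by decide +kernel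
    rwa [e0] at this

lemma reachB {x : Node} (hx : x ∈ keys tabB) :
    InH 225 79 x ∧ Relation.ReflTransGen (Edge 225 79) x (some (0, 0)) := by
  obtain ⟨i, hi, rfl⟩ := List.mem_iff_getElem.1 hx
  constructor
  · have := reach_first (E := Edge 225 79) (keys tabB) (by rw [lenB]; norm_num) (by
      intro i hi h0
      obtain ⟨j, hj, h⟩ := firstB i (by rw [lenB] at hi; exact hi) h0
      have hj' : j < (keys tabB).length := by omega
      refine ⟨j, hj', hj, ?_⟩
      rw [adjB (List.getElem_mem _)]
      rwa [getD_get _ _ hj', getD_get _ _ hi] at h) i hi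
    have e0 : (keys tabB)[0]'(by rw [lenB]; norm_num) = none := by decide +kernel
    rwa [e0] at this
  · have := reach_last (E := Edge 225 79) (keys tabB) 13 (by rw [lenB]) (by
      intro i hi h0
      obtain ⟨j, hj, hij, h⟩ := lastB i (by rw [lenB] at hi; exact hi) h0
      have hj' : j < (keys tabB).length := by rw [lenB]; exact hj
      refine ⟨j, hj', hij, ?_⟩
      rw [adjB (List.getElem_mem _)]
      rwa [getD_get _ _ hj', getD_get _ _ hi] at h) (13 - i) i hi (by rw [lenB] at hi; omega)
    have e0 : (keys tabB)[13]'(by rw [lenB]; norm_num) = some (0, 0) := by decide +kernel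
    rwa [e0] at this

lemma youngA (x : Node) : InYoung 493 316 x ↔ x ∈ keys tabA := by
  constructor
  · rintro ⟨h, -⟩; exact inH_A h
  · intro hx
    refine ⟨(reachA hx).1, some (0, 0), Or.inl ⟨?_, 0, rfl⟩, (reachA hx).2⟩
    exact (reachA (x := some (0, 0)) (by decide +kernel)).1

lemma noPivotN : ∀ e ∈ tabN, ∀ p, e.1 = some p → p.1 ≠ p.2 ∧ (p.2, p.1) ∉ e.2 := by
  intro e he p hp
  have h : ∀ e ∈ tabN, (match e.1 with
      | none => true
      | some p => decide (p.1 ≠ p.2 ∧ (p.2, p.1) ∉ e.2)) = true := by decide +kernel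
  have := h e he
  rw [hp] at this
  simpa using this

lemma not_pivot_N {y : Node} (hy : y ∈ keys tabN) : ¬ Pivot 225 79 y := by
  obtain ⟨e, he, rfl⟩ := mem_keys hy
  rintro (⟨-, r, hr⟩ | ⟨-, (⟨r, hr, -⟩ | ⟨r', r, hne, hr, hE⟩)⟩)
  · exact (noPivotN e he _ hr).1 rfl
  · exact (noPivotN e he _ hr).1 rfl
  · obtain ⟨p, hp, hp'⟩ := (edgeN he _).1 hE
    have : p = (r, r') := by simpa using hp'.symm
    rw [this] at hp
    exact (noPivotN e he _ hr).2 hp

lemma youngB (x : Node) : InYoung 225 79 x ↔ x ∈ keys tabB := by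
  constructor
  · rintro ⟨h, y, hy, hxy⟩
    rcases inH_B h with h | h
    · exact h
    · exact absurd hy (not_pivot_N (reachN h hxy))
  · intro hx
    refine ⟨(reachB hx).1, some (0, 0), Or.inl ⟨?_, 0, rfl⟩, (reachB hx).2⟩
    exact (reachB (x := some (0, 0)) (by decide +kernel)).1

/-- The map between the two lists of nodes. -/
def tr (l l' : List Node) (x : Node) : Node :=
  (((l.zip l').find? fun p => p.1 == x).map Prod.snd).getD none

lemma trAB : ∀ x ∈ keys tabA, tr (keys tabA) (keys tabB) x ∈ keys tabB ∧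
    tr (keys tabB) (keys tabA) (tr (keys tabA) (keys tabB) x) = x := by decide +kernel
lemma trBA : ∀ x ∈ keys tabB, tr (keys tabB) (keys tabA) x ∈ keys tabA ∧
    tr (keys tabA) (keys tabB) (tr (keys tabB) (keys tabA) x) = x := by decide +kernel
lemma trE : ∀ x ∈ keys tabA, ∀ y ∈ keys tabA, adj tabA x y =
    adj tabB (tr (keys tabA) (keys tabB) x) (tr (keys tabA) (keys tabB) y) := by decide +kernel

/-- The isomorphism of underlying digraphs. -/
def theIso : DigraphIso 493 316 225 79 where
  toEquiv :=
    { toFun := fun x => ⟨tr (keys tabA) (keys tabB) x.1, (youngB _).2 (trAB _ ((youngA _).1 x.2)).1⟩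
      invFun := fun y => ⟨tr (keys tabB) (keys tabA) y.1, (youngA _).2 (trBA _ ((youngB _).1 y.2)).1⟩
      left_inv := fun x => Subtype.ext (trAB _ ((youngA _).1 x.2)).2
      right_inv := fun y => Subtype.ext (trBA _ ((youngB _).1 y.2)).2 }
  edge_iff := by
    intro x y
    have hx := (youngA _).1 x.2
    have hy := (youngA _).1 y.2
    rw [adjA hx, trE _ hx _ hy]
    exact (adjB (trAB _ hx).1).symm

lemma evenB : ∀ x ∈ keys tabB, ∀ r, x = some (r, r) → x = some (0, 0) := by
  intro x hx r hr
  have h : ∀ x ∈ keys tabB, (match x with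
      | none => true
      | some p => decide (p.1 = p.2 → p = (0, 0))) = true := by decide +kernel
  have := h x hx
  rw [hr] at this
  simp only [decide_eq_true_eq, forall_const] at this
  rw [hr, this]

lemma not_iso : ¬ YoungIso 493 316 225 79 := by
  rintro ⟨f, hf, -⟩
  have h1 : (some (104, 104) : Node) ∈ keys tabA := by decide +kernel
  have h2 : (some (96, 96) : Node) ∈ keys tabA := by decide +kernel
  have e1 := (hf ⟨_, (youngA _).2 h1⟩).1 ⟨(reachA h1).1, 104, rfl⟩
  have e2 := (hf ⟨_, (youngA _).2 h2⟩).1 ⟨(reachA h2).1, 96, rfl⟩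
  obtain ⟨-, r1, hr1⟩ := e1
  obtain ⟨-, r2, hr2⟩ := e2
  have k1 := evenB _ ((youngB _).1 (f.toEquiv ⟨_, (youngA _).2 h1⟩).2) r1 hr1
  have k2 := evenB _ ((youngB _).1 (f.toEquiv ⟨_, (youngA _).2 h2⟩).2) r2 hr2
  have k3 := f.toEquiv.injective (Subtype.ext (k1.trans k2.symm))
  have k4 := congrArg Subtype.val k3
  simp at k4

lemma existsA : YoungExists 493 316 :=
  ⟨some (104, 104), Or.inl ⟨(reachA (by decide +kernel)).1, 104, rfl⟩, by decide⟩

lemma existsB : YoungExists 225 79 := by
  have h : (some (66, 30) : Node) ∈ keys tabB := by decide +kernel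
  refine ⟨some (66, 30), Or.inr ⟨(reachB h).1, Or.inr ⟨66, 30, by norm_num, rfl, ?_⟩⟩, by decide⟩
  rw [adjB h]
  decide +kernel

/-- The explicit pair. -/
theorem explicit : YoungExists 493 316 ∧ YoungExists 225 79 ∧
    Nonempty (DigraphIso 493 316 225 79) ∧ ¬ YoungIso 493 316 225 79 :=
  ⟨existsA, existsB, ⟨theIso⟩, not_iso⟩

/-- **Q1, positive answer.**  There are admissible pairs `(g,k) ≠ (g',k')` whose Young graphs
both exist and have isomorphic underlying directed graphs, but are not isomorphic as Young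
graphs. -/
theorem result : ∃ g k g' k' : ℕ, (3 ≤ g ∧ 2 ≤ k ∧ k < g) ∧ (3 ≤ g' ∧ 2 ≤ k' ∧ k' < g') ∧
    (g, k) ≠ (g', k') ∧ YoungExists g k ∧ YoungExists g' k' ∧
    Nonempty (DigraphIso g k g' k') ∧ ¬ YoungIso g k g' k' :=
  ⟨493, 316, 225, 79, by norm_num, by norm_num, by norm_num, existsA, existsB, ⟨theIso⟩, not_iso⟩

end Pool.Agent.Results.MP_5fcb94_co.SameDigraph
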